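import Pool.Agent.H4.TA.Targets

/-!
# Existence of a good set of traps
-/

set_option autoImplicit false

open Finset Pool.Agent.H43.TC Pool.Agent.H4.TA

namespace Pool.Agent.H81.TA

theorem card_tor (k L : ℕ) [NeZero L] : Fintype.card (Tor k L) = L ^ k := by
  rw [Fintype.card_fun, ZMod.card, Fintype.card_fin]

/-- the number of walks avoiding the traps -/
theorem walks_traps (hWRD : T_WRD) (k L t : ℕ) [NeZero L] (S : Finset (Tor k L))
    (x : Tor k L) :
    (walks e (fun y => decide (y ∈ S)) false t x : ℝ) =
      ∑ w : Wd k t, ind (Disjoint S ((range (t + 1)).image fun i => x + pr (pos w i))) := by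
  rw [hWRD (Tor k L) k e pr (fun i => by
    funext j
    simp [pr, un, e, Pi.single_apply])]
  refine sum_congr rfl fun w _ => ind_congr ?_
  rw [Finset.disjoint_right]
  constructor
  · intro h a ha
    rw [Finset.mem_image] at ha
    obtain ⟨i, hi, rfl⟩ := ha
    have := h i (by rw [Finset.mem_range] at hi; omega)
    exact of_decide_eq_false this
  · intro h i hi
    exact decide_eq_false (h (Finset.mem_image_of_mem _ (Finset.mem_range.2 (by omega))))

/-- **there is a good set of traps** -/
theorem pf_TRP (hWRD : T_WRD) (hBIN : T_BIN) (hTR1 : T_TR1) (hTR2 : T_TR2) : T_TRP := by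
  intro k L t K _ hk ht hK
  have hcard := card_tor k L
  have hL : 0 < L := Nat.pos_of_ne_zero (NeZero.ne L)
  have hN : 0 < L ^ k := pow_pos hL k
  have hNR : (((L ^ k : ℕ) : ℝ)) = (L : ℝ) ^ k := by push_cast; rfl
  obtain ⟨B, hB⟩ : ∃ B : ℝ, B = ∑ w : Wd k t, (1 - K / L ^ k : ℝ) ^ R w := ⟨_, rfl⟩
  have hne : (powersetCard K (univ : Finset (Tor k L))).Nonempty := by
    rw [Finset.powersetCard_nonempty, Finset.card_univ, hcard]
    exact hK
  have hsum : ∑ S ∈ powersetCard K (univ : Finset (Tor k L)),
      ((total (fun y => decide (y ∈ S)) false t : ℕ) : ℝ) ≤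
      ∑ _S ∈ powersetCard K (univ : Finset (Tor k L)), (L : ℝ) ^ k * B := by
    have h1 : ∀ S ∈ powersetCard K (univ : Finset (Tor k L)),
        ((total (fun y => decide (y ∈ S)) false t : ℕ) : ℝ) =
        ∑ x : Tor k L, ∑ w : Wd k t,
          ind (Disjoint S ((range (t + 1)).image fun i => x + pr (pos w i))) := by
      intro S _
      unfold total
      rw [Nat.cast_sum]
      exact sum_congr rfl fun x _ => walks_traps hWRD k L t S x
    rw [sum_congr rfl h1, sum_comm]
    have h2 : ∀ x ∈ (univ : Finset (Tor k L)), ∑ S ∈ powersetCard K (univ : Finset (Tor k L)),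
        ∑ w : Wd k t, ind (Disjoint S ((range (t + 1)).image fun i => x + pr (pos w i))) ≤
        ((L ^ k).choose K : ℝ) * B := by
      intro x _
      rw [sum_comm, hB, mul_sum]
      refine sum_le_sum fun w _ => ?_
      have hR := hTR2 k L t w x ht
      have hRN : R w ≤ L ^ k := by
        rw [← hR, ← hcard]
        exact Finset.card_le_univ _
      have h3 : ∑ S ∈ powersetCard K (univ : Finset (Tor k L)),
          ind (Disjoint S ((range (t + 1)).image fun i => x + pr (pos w i))) =
          ((((L ^ k) - R w).choose K : ℕ) : ℝ) := by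
        rw [← hR, ← hcard, ← hTR1 (Tor k L) K, Finset.card_filter, Nat.cast_sum]
        refine sum_congr rfl fun S _ => ?_
        unfold ind
        split_ifs <;> simp
      rw [h3]
      have h4 := hBIN (L ^ k) K (R w) hK hRN hN
      rw [hNR] at h4
      rw [mul_comm]
      exact h4
    refine (sum_le_sum h2).trans (le_of_eq ?_)
    rw [sum_const, sum_const, card_powersetCard, Finset.card_univ, hcard, nsmul_eq_mul,
      nsmul_eq_mul, hNR]
    ring
  obtain ⟨S, hS, hSB⟩ := exists_le_of_sum_le hne hsum
  rw [mem_powersetCard_univ] at hS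
  refine ⟨fun y => decide (y ∈ S), ?_, ?_⟩
  · unfold size
    rw [← hS]
    congr 1
    ext y
    simp
  · unfold mono av
    rw [← hB]
    have hL' : (0 : ℝ) < (L : ℝ) ^ k := by rw [← hNR]; exact_mod_cast hN
    have hk' : (0 : ℝ) < (2 * k : ℝ) ^ t := by
      have : (0 : ℝ) < k := by exact_mod_cast hk
      positivity
    rw [div_le_div_iff₀ (by positivity) hk']
    have h5 := mul_le_mul_of_nonneg_right hSB hk'.le
    linarith

end Pool.Agent.H81.TA
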