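import Pool.Agent.H4.TA.Targets

/-!
# The points of the region given by traps
-/

set_option autoImplicit false

open Finset Pool.Agent.H43.TC Pool.Agent.H4.TA

namespace Pool.Agent.H81.TA

theorem walks_all {G : Type} [AddCommGroup G] {k : ℕ} (s : Fin k → G) (t : ℕ) (x : G) :
    walks s (fun _ => true) true t x = (2 * k) ^ t := by
  induction t generalizing x with
  | zero => simp [walks]
  | succ t ih =>
    unfold walks
    rw [if_pos rfl]
    simp only [ih]
    rw [Finset.sum_const, Finset.card_univ, Fintype.card_fin, smul_eq_mul, pow_succ]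
    ring

theorem walks_none {G : Type} [AddCommGroup G] {k : ℕ} (s : Fin k → G) (t : ℕ) (x : G) :
    walks s (fun _ => true) false t x = 0 := by
  cases t with
  | zero => simp [walks]
  | succ t =>
    unfold walks
    rw [if_neg (by simp)]

theorem one_le_R {k t : ℕ} (w : Wd k t) : 1 ≤ R w := by
  unfold R
  rw [Nat.one_le_iff_ne_zero, ← Nat.pos_iff_ne_zero, Finset.card_pos]
  exact ⟨pos w 0, Finset.mem_image_of_mem _ (Finset.mem_range.2 (by omega))⟩

/-- **the points of the region given by traps** -/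
theorem pf_UPP (hPAT : T_PAT) (hNER : T_NER) (hREG : T_REG) (hTRP : T_TRP) : T_UPP := by
  intro k t a b hk ht ha hab
  have hb : 0 < b := by omega
  have ha' : (0 : ℝ) < a := by exact_mod_cast ha
  have hb' : (0 : ℝ) < b := by exact_mod_cast hb
  have hab' : (a : ℝ) ≤ b := by exact_mod_cast hab
  obtain ⟨L, hL⟩ : ∃ L, L = (a + b) * (t + 1) := ⟨_, rfl⟩
  have hL0 : 0 < L := by
    rw [hL]
    positivity
  have hLt : t < L := by
    rw [hL]
    nlinarith
  have : NeZero L := ⟨hL0.ne'⟩
  obtain ⟨j, rfl⟩ : ∃ j, k = j + 1 := ⟨k - 1, by omega⟩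
  obtain ⟨K, hK⟩ : ∃ K, K = a * (t + 1) * L ^ j := ⟨_, rfl⟩
  have hKL : K ≤ L ^ (j + 1) := by
    rw [hK, pow_succ, mul_comm (L ^ j) L]
    refine Nat.mul_le_mul_right _ ?_
    rw [hL]
    exact Nat.mul_le_mul_right _ (by omega)
  obtain ⟨c, hc1, hc2⟩ := hTRP (j + 1) L t K hk hLt hKL
  have hLR : (L : ℝ) = (a + b) * (t + 1) := by rw [hL]; push_cast; ring
  have hLp : (0 : ℝ) < L := by exact_mod_cast hL0
  have ht1 : (0 : ℝ) < (t : ℝ) + 1 := by positivity
  have hρ : (K : ℝ) / (L : ℝ) ^ (j + 1) = a / (a + b) := by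
    rw [hK]
    push_cast
    rw [pow_succ, div_eq_div_iff (by positivity) (by positivity)]
    rw [hLR]
    ring
  have hdens : Pool.Agent.H43.TC.dens c true = a / (a + b) := by
    unfold Pool.Agent.H43.TC.dens
    rw [hc1, hρ]
  have P1 := hPAT (j + 1) L t 0 c
  have P2 := hPAT (j + 1) 1 t 0 (fun _ => true)
  have hcard1 : Fintype.card (Tor (j + 1) 1) = 1 := by
    rw [Fintype.card_fun, ZMod.card, one_pow]
  have d1 : Pool.Agent.H43.TC.dens (fun _ : Tor (j + 1) 1 => true) true = 1 := by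
    unfold Pool.Agent.H43.TC.dens size
    rw [Finset.filter_true_of_mem (fun _ _ => rfl), Finset.card_univ, hcard1]
    simp
  have d2 : mono (fun _ : Tor (j + 1) 1 => true) true t = 1 := by
    unfold mono total
    simp only [walks_all]
    rw [Finset.sum_const, Finset.card_univ, hcard1]
    have : (0 : ℝ) < (2 * ((j + 1 : ℕ) : ℝ)) ^ t := by positivity
    push_cast
    push_cast at this
    rw [one_smul, one_pow, one_mul]
    push_cast
    exact div_self this.ne'
  have d3 : mono (fun _ : Tor (j + 1) 1 => true) false t = 0 := by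
    unfold mono total
    simp only [walks_none]
    simp
  rw [d1, d2, d3] at P2
  rw [hdens] at P1
  have hN := hNER (j + 1) t 0 _ _ _ _ _ _ P1 P2 (a + b) (2 * b) (by omega) (by omega)
  obtain ⟨w, hw⟩ : ∃ w : ℝ, w = ((a + b : ℕ) : ℝ) / ((2 * b : ℕ) : ℝ) := ⟨_, rfl⟩
  rw [← hw] at hN
  have hw' : w = ((a : ℝ) + b) / (2 * b) := by rw [hw]; push_cast; rfl
  have hhalf : w * ((a : ℝ) / (a + b)) + (1 - w) * 1 = 1 / 2 := by
    rw [hw']
    field_simp
    ring
  rw [hhalf] at hN
  refine ⟨2 * (w * mono c true t + (1 - w) * 1), 2 * (w * mono c false t + (1 - w) * 0), ?_, ?_,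
    ?_⟩
  · rw [hREG (j + 1) t _ _ hk, mul_div_cancel_left₀ _ (two_ne_zero),
      mul_div_cancel_left₀ _ (two_ne_zero)]
    exact hN
  · have hm : 0 ≤ mono c true t := by
      unfold mono
      positivity
    have hw0 : 0 ≤ w := by rw [hw']; positivity
    have e1 : 2 * ((1 - w) * 1) = 1 - (a : ℝ) / b := by
      rw [hw']
      field_simp
      ring
    nlinarith [mul_nonneg hw0 hm]
  · have e2 : 2 * w = 1 + (a : ℝ) / b := by
      rw [hw']
      field_simp
      ring
    have hu : (0 : ℝ) < 1 + (a : ℝ) / b := by positivity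
    have e3 : 2 * (w * mono c false t + (1 - w) * 0) = (1 + (a : ℝ) / b) * mono c false t := by
      rw [← e2]
      ring
    rw [e3]
    refine (mul_le_mul_of_nonneg_left hc2 hu.le).trans (le_of_eq ?_)
    rw [← av_mul]
    congr 1
    funext v
    have e4 : 1 - (K : ℝ) / (L : ℝ) ^ (j + 1) = (1 + (a : ℝ) / b)⁻¹ := by
      rw [hρ]
      field_simp
      ring
    rw [e4]
    obtain ⟨m, hm⟩ : ∃ m, R v = m + 1 := ⟨R v - 1, by have := one_le_R v; omega⟩
    rw [hm, Nat.add_sub_cancel, pow_succ]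
    field_simp

end Pool.Agent.H81.TA
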